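import Mathlib

/-!
# The constant `C₁(d)` in the uniform height bound is at least three, for every degree

For every degree `d ≥ 3` there are integral polynomials `f` of degree `d` without repeated roots,
with largest coefficient `M = 4 r ^ 2`, for which `y ^ 2 = f(x)` has an integral point with
`x = r ^ 6`, so `64 x = M ^ 3`.
-/

set_option autoImplicit false

open Polynomial

namespace Pool.Agent.Results.MP_d88658_nt.ConstantAtLeastThree

/-- a polynomial with four terms -/
noncomputable def quadri (a b c e : ℤ) (i j k l : ℕ) : ℤ[X] :=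
  C a * X ^ i + C b * X ^ j + C c * X ^ k + C e * X ^ l

lemma coeff_quadri (a b c e : ℤ) (i j k l n : ℕ) : (quadri a b c e i j k l).coeff n =
    (if n = i then a else 0) + (if n = j then b else 0) + (if n = k then c else 0) +
      (if n = l then e else 0) := by
  unfold quadri
  simp only [coeff_add, coeff_C_mul, coeff_X_pow, mul_ite, mul_one, mul_zero]

lemma natDegree_quadri {a b c e : ℤ} {i j k l : ℕ} (hij : i < j) (hjk : j < k) (hkl : k < l)
    (he : e ≠ 0) : (quadri a b c e i j k l).natDegree = l := by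
  apply natDegree_eq_of_le_of_coeff_ne_zero
  · rw [natDegree_le_iff_coeff_eq_zero]
    intro n hn
    rw [coeff_quadri, if_neg (by omega), if_neg (by omega), if_neg (by omega), if_neg (by omega)]
    rfl
  · rw [coeff_quadri, if_neg (by omega), if_neg (by omega), if_neg (by omega), if_pos rfl]
    simpa using he

/-- the largest absolute value of a coefficient of `f` -/
def height (f : ℤ[X]) : ℕ := f.support.sup (fun i => (f.coeff i).natAbs)

lemma height_eq {f : ℤ[X]} {M n : ℕ} (h1 : ∀ i, (f.coeff i).natAbs ≤ M)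
    (h2 : (f.coeff n).natAbs = M) (hM : M ≠ 0) : height f = M := by
  apply le_antisymm
  · exact Finset.sup_le fun i _ => h1 i
  · have hn : n ∈ f.support := by
      rw [mem_support_iff]
      intro h
      rw [h] at h2
      exact hM h2.symm
    have := Finset.le_sup (f := fun i => (f.coeff i).natAbs) hn
    simp only [h2] at this
    exact this

/-- separability, from the absence of a common root in `ℂ` -/
lemma separable_of {f : ℤ[X]} (h : ∀ α : ℂ, aeval α f = 0 → aeval α (derivative f) ≠ 0) :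
    (f.map (Int.castRingHom ℚ)).Separable := by
  unfold Separable
  refine (Polynomial.isCoprime_iff_aeval_ne_zero_of_isAlgClosed (k := ℚ) ℂ _ _).2 ?_
  intro α
  have e1 : aeval α (f.map (Int.castRingHom ℚ)) = aeval α f := by
    rw [aeval_def, aeval_def, eval₂_map]
    congr 1
  have e2 : aeval α (derivative (f.map (Int.castRingHom ℚ))) = aeval α (derivative f) := by
    rw [derivative_map, aeval_def, aeval_def, eval₂_map]
    congr 1
  rw [e1, e2]
  by_cases h0 : aeval α f = 0
  · exact Or.inr (h α h0)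
  · exact Or.inl h0

/-- in a pencil `A + t B` without base points only finitely many members have a double root -/
lemma finite_bad {A B : ℂ[X]} (hAB : ∀ α, B.eval α = 0 → A.eval α ≠ 0)
    (hW : (A * derivative B - derivative A * B).eval 1 ≠ 0) :
    {t : ℂ | ∃ α, A.eval α + t * B.eval α = 0 ∧
      (derivative A).eval α + t * (derivative B).eval α = 0}.Finite := by
  have hW0 : A * derivative B - derivative A * B ≠ 0 := by
    rintro h
    rw [h, eval_zero] at hW
    exact hW rfl
  refine ((A * derivative B - derivative A * B).rootSet_finite ℂ |>.image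
    (fun α => -(A.eval α) / B.eval α)).subset ?_
  rintro t ⟨α, h1, h2⟩
  have hB : B.eval α ≠ 0 := by
    intro h
    rw [h, mul_zero, add_zero] at h1
    exact hAB α h h1
  refine ⟨α, ?_, ?_⟩
  · rw [mem_rootSet]
    refine ⟨hW0, ?_⟩
    rw [coe_aeval_eq_eval, eval_sub, eval_mul, eval_mul]
    linear_combination ((derivative B).eval α) * h1 - (B.eval α) * h2
  · show -(A.eval α) / B.eval α = t
    rw [div_eq_iff hB]
    linear_combination -h1

/-- the first pencil, of degree `4 e + 3` -/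
noncomputable def A₁ (e : ℕ) : ℂ[X] := X ^ (4 * e + 3) - 8 * X ^ (e + 1)

/-- the other polynomial of the first pencil -/
noncomputable def B₁ (e : ℕ) : ℂ[X] := 4 * X ^ (3 * e + 2) + 4

/-- the second pencil, of degree `4 e + 5` -/
noncomputable def A₂ (e : ℕ) : ℂ[X] := 1 - 8 * X ^ (3 * e + 4)

/-- the other polynomial of the second pencil -/
noncomputable def B₂ (e : ℕ) : ℂ[X] := 4 * X ^ (4 * e + 5) + 4 * X ^ (e + 1)

lemma bad₁ (e : ℕ) : {t : ℂ | ∃ α, (A₁ e).eval α + t * (B₁ e).eval α = 0 ∧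
      (derivative (A₁ e)).eval α + t * (derivative (B₁ e)).eval α = 0}.Finite := by
  apply finite_bad
  · intro α h h'
    simp only [A₁, B₁, eval_add, eval_sub, eval_mul, eval_pow, eval_X, eval_ofNat] at h h'
    have h1 : α ^ (3 * e + 2) = -1 := by linear_combination h / 4
    have h2 : α ≠ 0 := by
      rintro rfl
      rw [zero_pow (by omega)] at h1
      norm_num at h1
    have h3 : α ^ (e + 1) * (α ^ (3 * e + 2) - 8) = 0 := by
      rw [← h']
      ring
    rw [h1] at h3
    rcases mul_eq_zero.1 h3 with h4 | h4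
    · exact pow_ne_zero _ h2 h4
    · norm_num at h4
  · simp only [A₁, B₁, derivative_add, derivative_sub, derivative_mul, derivative_X_pow,
      derivative_ofNat, eval_add, eval_sub, eval_mul, eval_pow, eval_X, eval_ofNat, one_pow,
      eval_C, zero_mul, zero_add, mul_one, eval_zero]
    intro h
    have h1 : (52 * e + 16 : ℂ) = 0 := by
      push_cast at h
      linear_combination -h
    have h2 : (52 * e + 16 : ℕ) = 0 := by exact_mod_cast h1
    omega

lemma bad₂ (e : ℕ) : {t : ℂ | ∃ α, (A₂ e).eval α + t * (B₂ e).eval α = 0 ∧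
      (derivative (A₂ e)).eval α + t * (derivative (B₂ e)).eval α = 0}.Finite := by
  apply finite_bad
  · intro α h h'
    simp only [A₂, B₂, eval_add, eval_sub, eval_mul, eval_pow, eval_X, eval_ofNat, eval_one] at h h'
    have h1 : α ^ (e + 1) * (α ^ (3 * e + 4) + 1) = 0 := by
      linear_combination h / 4
    rcases mul_eq_zero.1 h1 with h4 | h4
    · have : α = 0 := eq_zero_of_pow_eq_zero h4
      rw [this, zero_pow (by omega)] at h'
      norm_num at h'
    · have h5 : α ^ (3 * e + 4) = -1 := by linear_combination h4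
      rw [h5] at h'
      norm_num at h'
  · simp only [A₂, B₂, derivative_add, derivative_sub, derivative_mul, derivative_X_pow,
      derivative_ofNat, eval_add, eval_sub, eval_mul, eval_pow, eval_X, eval_ofNat, one_pow,
      eval_C, zero_mul, zero_add, mul_one, eval_zero, derivative_one, eval_one]
    intro h
    have h1 : (52 * e + 88 : ℂ) = 0 := by
      push_cast at h
      linear_combination h
    have h2 : (52 * e + 88 : ℕ) = 0 := by exact_mod_cast h1
    omega

/-- the members of the first family, of degrees `4 e + 3` (`s = 0`) and `4 e + 4` (`s = 1`) -/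
noncomputable def f₁ (e r s : ℕ) : ℤ[X] :=
  quadri (4 * (r : ℤ) ^ 2) (-8) (4 * (r : ℤ) ^ 2) 1 s (e + 1 + s) (3 * e + 2 + s) (4 * e + 3 + s)

/-- the members of the second family, of degrees `4 e + 5` (`s = 0`) and `4 e + 6` (`s = 1`) -/
noncomputable def f₂ (e r s : ℕ) : ℤ[X] :=
  quadri 1 (4 * (r : ℤ) ^ 2) (-8) (4 * (r : ℤ) ^ 2) s (e + 1 + s) (3 * e + 4 + s) (4 * e + 5 + s)

lemma aeval_eq (f : ℤ[X]) (α : ℂ) : aeval α f = (f.map (Int.castRingHom ℂ)).eval α := by
  rw [aeval_def, eval_map]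
  rfl

lemma map₁ (e r : ℕ) : (f₁ e r 0).map (Int.castRingHom ℂ) =
    A₁ e + C ((r : ℂ) ^ 2) * B₁ e := by
  unfold f₁ quadri A₁ B₁
  simp only [Polynomial.map_add, Polynomial.map_mul, Polynomial.map_pow, map_C, map_X, add_zero]
  simp only [map_mul, map_pow, map_neg, map_one, map_ofNat, map_natCast, pow_zero, mul_one]
  ring

lemma map₂ (e r : ℕ) : (f₂ e r 0).map (Int.castRingHom ℂ) =
    A₂ e + C ((r : ℂ) ^ 2) * B₂ e := by
  unfold f₂ quadri A₂ B₂
  simp only [Polynomial.map_add, Polynomial.map_mul, Polynomial.map_pow, map_C, map_X, add_zero]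
  simp only [map_mul, map_pow, map_neg, map_one, map_ofNat, map_natCast, pow_zero, mul_one]
  ring

lemma shift₁ (e r : ℕ) : f₁ e r 1 = X * f₁ e r 0 := by
  unfold f₁ quadri
  ring

lemma shift₂ (e r : ℕ) : f₂ e r 1 = X * f₂ e r 0 := by
  unfold f₂ quadri
  ring

/-- no double root for `f` and for `X * f` -/
lemma simple_roots {f : ℤ[X]} {A B : ℂ[X]} {r : ℕ}
    (hf : f.map (Int.castRingHom ℂ) = A + C ((r : ℂ) ^ 2) * B)
    (hbad : (r : ℂ) ^ 2 ∉ {t : ℂ | ∃ α, A.eval α + t * B.eval α = 0 ∧
      (derivative A).eval α + t * (derivative B).eval α = 0})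
    (h0 : f.eval 0 ≠ 0) :
    (f.map (Int.castRingHom ℚ)).Separable ∧ ((X * f).map (Int.castRingHom ℚ)).Separable := by
  have key : ∀ α : ℂ, aeval α f = 0 → aeval α (derivative f) ≠ 0 := by
    intro α h1 h2
    apply hbad
    rw [aeval_eq] at h1 h2
    rw [← derivative_map, hf] at h2
    rw [hf] at h1
    refine ⟨α, ?_, ?_⟩
    · rw [eval_add, eval_mul, eval_C] at h1
      exact h1
    · rw [derivative_add, derivative_C_mul, eval_add, eval_mul, eval_C] at h2
      exact h2
  have h3 : aeval (0 : ℂ) f = ((f.eval 0 : ℤ) : ℂ) := by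
    have := aeval_algebraMap_apply_eq_algebraMap_eval (A := ℂ) (0 : ℤ) f
    simpa using this
  refine ⟨separable_of key, separable_of ?_⟩
  intro α h1 h2
  rw [map_mul, aeval_X] at h1
  rw [derivative_mul, derivative_X, one_mul, map_add, map_mul, aeval_X] at h2
  rcases mul_eq_zero.1 h1 with h | h
  · rw [h, zero_mul, add_zero] at h2
    rw [h3] at h2
    exact h0 (by exact_mod_cast h2)
  · rw [h, zero_add] at h2
    rcases mul_eq_zero.1 h2 with h4 | h4
    · rw [h4] at h
      rw [h3] at h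
      exact h0 (by exact_mod_cast h)
    · exact key α h h4

lemma height₁ {e r s : ℕ} (hr : 2 ≤ r) : height (f₁ e r s) = 4 * r ^ 2 := by
  have h4 : 4 ≤ r ^ 2 := by nlinarith
  have hz : (4 * (r : ℤ) ^ 2).natAbs = 4 * r ^ 2 := by
    rw [Int.natAbs_mul, Int.natAbs_pow, Int.natAbs_natCast]
    rfl
  refine height_eq (n := s) ?_ ?_ (by omega)
  · intro i
    unfold f₁
    rw [coeff_quadri]
    generalize hT : 4 * (r : ℤ) ^ 2 = T at *
    split_ifs <;> omega
  · unfold f₁
    rw [coeff_quadri, if_pos rfl, if_neg (by omega), if_neg (by omega), if_neg (by omega)]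
    simpa using hz

lemma height₂ {e r s : ℕ} (hr : 2 ≤ r) : height (f₂ e r s) = 4 * r ^ 2 := by
  have h4 : 4 ≤ r ^ 2 := by nlinarith
  have hz : (4 * (r : ℤ) ^ 2).natAbs = 4 * r ^ 2 := by
    rw [Int.natAbs_mul, Int.natAbs_pow, Int.natAbs_natCast]
    rfl
  refine height_eq (n := 4 * e + 5 + s) ?_ ?_ (by omega)
  · intro i
    unfold f₂
    rw [coeff_quadri]
    generalize hT : 4 * (r : ℤ) ^ 2 = T at *
    split_ifs <;> omega
  · unfold f₂
    rw [coeff_quadri, if_neg (by omega), if_neg (by omega), if_neg (by omega), if_pos rfl]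
    simpa using hz

/-- a large `r` which is good for both pencils -/
lemma exists_r (e K : ℕ) : ∃ r : ℕ, K ≤ r ∧ 2 ≤ r ∧
    (r : ℂ) ^ 2 ∉ {t : ℂ | ∃ α, (A₁ e).eval α + t * (B₁ e).eval α = 0 ∧
      (derivative (A₁ e)).eval α + t * (derivative (B₁ e)).eval α = 0} ∧
    (r : ℂ) ^ 2 ∉ {t : ℂ | ∃ α, (A₂ e).eval α + t * (B₂ e).eval α = 0 ∧
      (derivative (A₂ e)).eval α + t * (derivative (B₂ e)).eval α = 0} := by
  have hinj : Function.Injective (fun r : ℕ => (r : ℂ) ^ 2) := by
    intro a b h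
    have h1 : (a : ℂ) ^ 2 = (b : ℂ) ^ 2 := h
    have h2 : a ^ 2 = b ^ 2 := by exact_mod_cast h1
    exact Nat.pow_left_injective (by norm_num : 2 ≠ 0) h2
  have h1 := (bad₁ e).preimage hinj.injOn
  have h2 := (bad₂ e).preimage hinj.injOn
  have h3 := (Set.finite_lt_nat (K + 2))
  obtain ⟨r, hr⟩ := ((h1.union h2).union h3).exists_notMem
  rw [Set.mem_union, Set.mem_union, not_or, not_or] at hr
  obtain ⟨⟨g1, g2⟩, g3⟩ := hr
  have g4 : ¬ r < K + 2 := g3
  exact ⟨r, by omega, by omega, g1, g2⟩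

/-- the explicit families -/
lemma main (d : ℕ) (hd : 3 ≤ d) (K : ℕ) : ∃ f : ℤ[X], f.natDegree = d ∧
    (f.map (Int.castRingHom ℚ)).Separable ∧ K ≤ height f ∧
    ∃ x y : ℤ, y ^ 2 = f.eval x ∧ 64 * x = (height f : ℤ) ^ 3 := by
  obtain ⟨e, s, hs, hds⟩ : ∃ e s : ℕ, s < 4 ∧ d = 4 * e + 3 + s :=
    ⟨(d - 3) / 4, (d - 3) % 4, by omega, by omega⟩
  obtain ⟨r, hKr, hr, hb1, hb2⟩ := exists_r e K
  have hr0 : (r : ℤ) ≠ 0 := by
    have : r ≠ 0 := by omega
    exact_mod_cast this
  have hKM : K ≤ 4 * r ^ 2 := by nlinarith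
  have hx : 64 * ((r : ℤ) ^ 6) = ((4 * r ^ 2 : ℕ) : ℤ) ^ 3 := by
    push_cast
    ring
  have z1 : (f₁ e r 0).eval 0 ≠ 0 := by
    unfold f₁ quadri
    simp
    omega
  have z2 : (f₂ e r 0).eval 0 ≠ 0 := by
    unfold f₂ quadri
    simp
  obtain ⟨s1, s2⟩ := simple_roots (map₁ e r) hb1 z1
  obtain ⟨s3, s4⟩ := simple_roots (map₂ e r) hb2 z2
  rw [← shift₁] at s2
  rw [← shift₂] at s4
  have hT : 4 * (r : ℤ) ^ 2 ≠ 0 := by positivity
  interval_cases s
  · refine ⟨f₁ e r 0, ?_, s1, ?_, (r : ℤ) ^ 6,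
      (r : ℤ) ^ (12 * e + 9) + 2 * (r : ℤ) ^ (6 * e + 5) - 2 * r, ?_, ?_⟩
    · unfold f₁
      rw [natDegree_quadri (by omega) (by omega) (by omega) one_ne_zero, hds]
    · rwa [height₁ hr]
    · unfold f₁ quadri
      simp only [eval_add, eval_mul, eval_pow, eval_C, eval_X]
      ring
    · rw [height₁ hr]
      exact hx
  · refine ⟨f₁ e r 1, ?_, s2, ?_, (r : ℤ) ^ 6,
      (r : ℤ) ^ 3 * ((r : ℤ) ^ (12 * e + 9) + 2 * (r : ℤ) ^ (6 * e + 5) - 2 * r), ?_, ?_⟩
    · unfold f₁
      rw [natDegree_quadri (by omega) (by omega) (by omega) one_ne_zero, hds]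
    · rwa [height₁ hr]
    · unfold f₁ quadri
      simp only [eval_add, eval_mul, eval_pow, eval_C, eval_X]
      ring
    · rw [height₁ hr]
      exact hx
  · refine ⟨f₂ e r 0, ?_, s3, ?_, (r : ℤ) ^ 6,
      1 + 2 * (r : ℤ) ^ (6 * e + 8) - 2 * (r : ℤ) ^ (12 * e + 16), ?_, ?_⟩
    · unfold f₂
      rw [natDegree_quadri (by omega) (by omega) (by omega) hT, hds]
    · rwa [height₂ hr]
    · unfold f₂ quadri
      simp only [eval_add, eval_mul, eval_pow, eval_C, eval_X]
      ring
    · rw [height₂ hr]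
      exact hx
  · refine ⟨f₂ e r 1, ?_, s4, ?_, (r : ℤ) ^ 6,
      (r : ℤ) ^ 3 * (1 + 2 * (r : ℤ) ^ (6 * e + 8) - 2 * (r : ℤ) ^ (12 * e + 16)), ?_, ?_⟩
    · unfold f₂
      rw [natDegree_quadri (by omega) (by omega) (by omega) hT, hds]
    · rwa [height₂ hr]
    · unfold f₂ quadri
      simp only [eval_add, eval_mul, eval_pow, eval_C, eval_X]
      ring
    · rw [height₂ hr]
      exact hx

/-- **The constant `C₁(d)` is at least three for every degree `d ≥ 3`.**
(1) For every `d ≥ 3` there are polynomials `f ∈ ℤ[X]` of degree `d` without repeated roots, of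
arbitrarily large height `M` (the largest absolute value of a coefficient), such that
`y ^ 2 = f(x)` has an integral point with `64 x = M ^ 3`.
(2) Hence, if the uniform height bound of the problem holds for the degree `d` with the constants
`C₁` and `C₂`, then `C₁ ≥ 3`. -/
theorem result (d : ℕ) (hd : 3 ≤ d) :
    (∀ K : ℕ, ∃ f : ℤ[X], f.natDegree = d ∧ (f.map (Int.castRingHom ℚ)).Separable ∧
      K ≤ height f ∧ ∃ x y : ℤ, y ^ 2 = f.eval x ∧ 64 * x = (height f : ℤ) ^ 3) ∧
    (∀ C₁ C₂ : ℝ, (∀ f : ℤ[X], f.natDegree = d → (f.map (Int.castRingHom ℚ)).Separable →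
      ∀ x y : ℤ, y ^ 2 = f.eval x →
        Real.log (max |(x : ℝ)| 1) ≤ C₁ * Real.log (max (height f : ℝ) 1) + C₂) → 3 ≤ C₁) := by
  refine ⟨main d hd, ?_⟩
  intro C₁ C₂ h
  by_contra hC
  push Not at hC
  obtain ⟨K, hK⟩ := exists_nat_gt (Real.exp ((C₂ + Real.log 64) / (3 - C₁)))
  obtain ⟨f, hfd, hfs, hfK, x, y, hxy, hx⟩ := main d hd (K + 1)
  have h1 := h f hfd hfs x y hxy
  have hM : (1 : ℝ) ≤ height f := by
    have : 1 ≤ height f := by omega
    exact_mod_cast this
  have hM0 : (0 : ℝ) < height f := by linarith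
  have hx' : (64 : ℝ) * x = (height f : ℝ) ^ 3 := by exact_mod_cast hx
  have hx0 : (0 : ℝ) < x := by
    have : (0 : ℝ) < (height f : ℝ) ^ 3 := by positivity
    rw [← hx'] at this
    linarith
  have h2 : Real.log x = 3 * Real.log (height f) - Real.log 64 := by
    have h3 : Real.log (64 * x) = Real.log ((height f : ℝ) ^ 3) := by rw [hx']
    rw [Real.log_mul (by norm_num) hx0.ne', Real.log_pow] at h3
    push_cast at h3
    linarith
  have h4 : Real.log x ≤ Real.log (max |(x : ℝ)| 1) :=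
    Real.log_le_log hx0 (le_max_of_le_left (le_abs_self _))
  rw [max_eq_left hM] at h1
  have h5 : (3 - C₁) * Real.log (height f) ≤ C₂ + Real.log 64 := by nlinarith
  have h6 : Real.log (height f) ≤ (C₂ + Real.log 64) / (3 - C₁) := by
    rw [le_div_iff₀ (by linarith)]
    linarith
  have h7 : (height f : ℝ) ≤ Real.exp ((C₂ + Real.log 64) / (3 - C₁)) :=
    (Real.log_le_iff_le_exp hM0).1 h6
  have h8 : (K : ℝ) + 1 ≤ height f := by exact_mod_cast hfK
  linarith

end Pool.Agent.Results.MP_d88658_nt.ConstantAtLeastThree
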