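import Mathlib

/-!
# The constant `C₁(3)` in the uniform height bound is at least six

For every integer `k ≥ 1` the cubic
`f_k = k ^ 2 x ^ 3 - (7 k ^ 2 + 8) x ^ 2 + 24 (k ^ 2 + 4) x + 16 k ^ 2`
has no repeated root, and `y ^ 2 = f_k(x)` has the integral point with
`4 x = t (t + 2) (t + 3) (t + 4) (t ^ 2 + 5 t + 10)`, `t = k ^ 2`. The largest coefficient is
`M = 24 (k ^ 2 + 4)`, and `4 x > k ^ 12`, so `x` is larger than a constant times `M ^ 6`.
-/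

set_option autoImplicit false

open Polynomial

namespace Pool.Agent.Results.MP_d88658_nt.CubicConstantAtLeastSix

/-- the largest absolute value of a coefficient of `f` -/
def height (f : ℤ[X]) : ℕ := f.support.sup (fun i => (f.coeff i).natAbs)

lemma height_eq {f : ℤ[X]} {M n : ℕ} (h1 : ∀ i, (f.coeff i).natAbs ≤ M)
    (h2 : (f.coeff n).natAbs = M) (hM : M ≠ 0) : height f = M := by
  apply le_antisymm
  · exact Finset.sup_le fun i _ => h1 i
  · have hn : n ∈ f.support := by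
      rw [mem_support_iff]
      intro h
      rw [h] at h2
      exact hM h2.symm
    have := Finset.le_sup (f := fun i => (f.coeff i).natAbs) hn
    simp only [h2] at this
    exact this

/-- separability, from the absence of a common root in `ℂ` -/
lemma separable_of {f : ℤ[X]} (h : ∀ α : ℂ, aeval α f = 0 → aeval α (derivative f) ≠ 0) :
    (f.map (Int.castRingHom ℚ)).Separable := by
  unfold Separable
  refine (Polynomial.isCoprime_iff_aeval_ne_zero_of_isAlgClosed (k := ℚ) ℂ _ _).2 ?_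
  intro α
  have e1 : aeval α (f.map (Int.castRingHom ℚ)) = aeval α f := by
    rw [aeval_def, aeval_def, eval₂_map]
    congr 1
  have e2 : aeval α (derivative (f.map (Int.castRingHom ℚ))) = aeval α (derivative f) := by
    rw [derivative_map, aeval_def, aeval_def, eval₂_map]
    congr 1
  rw [e1, e2]
  by_cases h0 : aeval α f = 0
  · exact Or.inr (h α h0)
  · exact Or.inl h0

/-- the cubic `f_k` -/
noncomputable def f (k : ℕ) : ℤ[X] :=
  C ((k : ℤ) ^ 2) * X ^ 3 + C (-(7 * (k : ℤ) ^ 2 + 8)) * X ^ 2 + C (24 * ((k : ℤ) ^ 2 + 4)) * X +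
    C (16 * (k : ℤ) ^ 2)

lemma natDegree_f {k : ℕ} (hk : 1 ≤ k) : (f k).natDegree = 3 := by
  have : (k : ℤ) ^ 2 ≠ 0 := by
    have : (k : ℤ) ≠ 0 := by
      have : k ≠ 0 := by omega
      exact_mod_cast this
    positivity
  exact natDegree_cubic this

lemma coeff_f (k n : ℕ) : (f k).coeff n = (if n = 3 then (k : ℤ) ^ 2 else 0) +
    (if n = 2 then -(7 * (k : ℤ) ^ 2 + 8) else 0) +
    (if n = 1 then 24 * ((k : ℤ) ^ 2 + 4) else 0) +
      (if n = 0 then 16 * (k : ℤ) ^ 2 else 0) := by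
  unfold f
  rw [coeff_add, coeff_add, coeff_add, coeff_C_mul, coeff_C_mul, coeff_C_mul, coeff_X_pow,
    coeff_X_pow, coeff_X, coeff_C]
  simp only [mul_ite, mul_one, mul_zero, eq_comm (a := 1) (b := n)]

lemma height_f {k : ℕ} : height (f k) = 24 * (k ^ 2 + 4) := by
  have hT : (k : ℤ) ^ 2 = ((k ^ 2 : ℕ) : ℤ) := by push_cast; rfl
  refine height_eq (n := 1) ?_ ?_ (by omega)
  · intro i
    rw [coeff_f, hT]
    generalize k ^ 2 = T
    split_ifs <;> omega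
  · rw [coeff_f, hT]
    generalize k ^ 2 = T
    simp only [if_true]
    norm_num
    omega

lemma le_height (k : ℕ) : k ≤ height (f k) := by
  rw [height_f]
  nlinarith

lemma separable_f {k : ℕ} (hk : 1 ≤ k) : ((f k).map (Int.castRingHom ℚ)).Separable := by
  apply separable_of
  intro α h1 h2
  have e1 : aeval α (f k) = (k : ℂ) ^ 2 * α ^ 3 + -(7 * (k : ℂ) ^ 2 + 8) * α ^ 2 +
      24 * ((k : ℂ) ^ 2 + 4) * α + 16 * (k : ℂ) ^ 2 := by
    unfold f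
    simp [map_ofNat]
  have e2 : aeval α (derivative (f k)) = 3 * (k : ℂ) ^ 2 * α ^ 2 + 2 * -(7 * (k : ℂ) ^ 2 + 8) * α +
      24 * ((k : ℂ) ^ 2 + 4) := by
    unfold f
    rw [derivative_add, derivative_add, derivative_add, derivative_C_mul_X_pow,
      derivative_C_mul_X_pow, derivative_C_mul_X, derivative_C]
    simp [map_ofNat]
    ring
  rw [e1] at h1
  rw [e2] at h2
  generalize hτ : (k : ℂ) ^ 2 = τ at *
  have h3 : (46 * τ ^ 2 + 352 * τ - 128) * α + (312 * τ ^ 2 + 864 * τ + 768) = 0 := by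
    linear_combination (9 * τ) * h1 - (3 * τ * α - (7 * τ + 8)) * h2
  have h4 : 543744 * τ ^ 5 + 4921344 * τ ^ 4 + 16063488 * τ ^ 3 + 19611648 * τ ^ 2 -
      5308416 * τ = 0 := by
    linear_combination (46 * τ ^ 2 + 352 * τ - 128) ^ 2 * h2 +
      (3 * τ * ((312 * τ ^ 2 + 864 * τ + 768) - (46 * τ ^ 2 + 352 * τ - 128) * α) +
        2 * (7 * τ + 8) * (46 * τ ^ 2 + 352 * τ - 128)) * h3
  rw [← hτ] at h4
  have h5 : 543744 * ((k : ℤ) ^ 2) ^ 5 + 4921344 * ((k : ℤ) ^ 2) ^ 4 +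
      16063488 * ((k : ℤ) ^ 2) ^ 3 + 19611648 * ((k : ℤ) ^ 2) ^ 2 - 5308416 * (k : ℤ) ^ 2 = 0 := by
    exact_mod_cast h4
  have h6 : (1 : ℤ) ≤ (k : ℤ) ^ 2 := by
    have : (1 : ℤ) ≤ k := by exact_mod_cast hk
    nlinarith
  generalize (k : ℤ) ^ 2 = T at *
  have h7 : 0 < 543744 * T ^ 5 + 4921344 * T ^ 4 + 16063488 * T ^ 3 := by positivity
  nlinarith

/-- four times the first coordinate of the point -/
def P (t : ℤ) : ℤ := t * (t + 2) * (t + 3) * (t + 4) * (t ^ 2 + 5 * t + 10)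

/-- `8 / k` times the second coordinate of the point, `t = k ^ 2` -/
def Q (t : ℤ) : ℤ := t ^ 9 + 21 * t ^ 8 + 195 * t ^ 7 + 1045 * t ^ 6 + 3516 * t ^ 5 + 7518 * t ^ 4 +
  9728 * t ^ 3 + 6456 * t ^ 2 + 960 * t - 608

lemma identity (t : ℤ) : t * Q t ^ 2 =
    t * P t ^ 3 - (28 * t + 32) * P t ^ 2 + (384 * t + 1536) * P t + 1024 * t := by
  unfold P Q
  ring

lemma four_dvd (t : ℤ) : 4 ∣ P t := by
  have h : ∀ s : ZMod 4, s * (s + 2) * (s + 3) * (s + 4) * (s * s + 5 * s + 10) = 0 := by decide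
  have h2 := h (t : ZMod 4)
  rw [← sq] at h2
  apply (ZMod.intCast_zmod_eq_zero_iff_dvd (P t) 4).1
  unfold P
  push_cast
  exact h2

lemma eight_dvd (k : ℤ) : 8 ∣ Q (k ^ 2) := by
  have h : ∀ s : ZMod 8, s ^ 2 = 0 ∨ s ^ 2 = 1 ∨ s ^ 2 = 4 := by decide
  apply (ZMod.intCast_zmod_eq_zero_iff_dvd (Q (k ^ 2)) 8).1
  unfold Q
  push_cast
  rcases h (k : ZMod 8) with h | h | h <;> rw [h] <;> decide

/-- the integral point -/
lemma point (k : ℕ) : ∃ x y : ℤ, y ^ 2 = (f k).eval x ∧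
    4 * x = (k : ℤ) ^ 2 * ((k : ℤ) ^ 2 + 2) * ((k : ℤ) ^ 2 + 3) * ((k : ℤ) ^ 2 + 4) *
      (((k : ℤ) ^ 2) ^ 2 + 5 * (k : ℤ) ^ 2 + 10) := by
  obtain ⟨x, hx⟩ := four_dvd ((k : ℤ) ^ 2)
  obtain ⟨v, hv⟩ := eight_dvd (k : ℤ)
  have h := identity ((k : ℤ) ^ 2)
  rw [hx, hv] at h
  refine ⟨x, k * v, ?_, ?_⟩
  · unfold f
    simp only [eval_add, eval_mul, eval_pow, eval_C, eval_X]
    apply mul_left_cancel₀ (by norm_num : (64 : ℤ) ≠ 0)
    linear_combination h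
  · rw [← hx]
    rfl

/-- the points are large -/
lemma large {k : ℕ} (hk : 1 ≤ k) {x : ℤ} (hx : 4 * x = (k : ℤ) ^ 2 * ((k : ℤ) ^ 2 + 2) *
    ((k : ℤ) ^ 2 + 3) * ((k : ℤ) ^ 2 + 4) * (((k : ℤ) ^ 2) ^ 2 + 5 * (k : ℤ) ^ 2 + 10)) :
    (height (f k) : ℤ) ^ 6 ≤ 4 * 120 ^ 6 * x := by
  rw [height_f]
  push_cast
  have h6 : (1 : ℤ) ≤ (k : ℤ) ^ 2 := by
    have : (1 : ℤ) ≤ k := by exact_mod_cast hk
    nlinarith
  generalize (k : ℤ) ^ 2 = T at *
  have h1 : (24 * (T + 4)) ^ 6 ≤ (120 * T) ^ 6 := by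
    apply pow_le_pow_left₀ (by positivity)
    linarith
  have h2 : T ^ 6 ≤ 4 * x := by
    rw [hx]
    have : 0 ≤ 14 * T ^ 5 + 81 * T ^ 4 + 244 * T ^ 3 + 380 * T ^ 2 + 240 * T := by positivity
    nlinarith
  calc (24 * (T + 4)) ^ 6 ≤ (120 * T) ^ 6 := h1
    _ = 120 ^ 6 * T ^ 6 := by ring
    _ ≤ 120 ^ 6 * (4 * x) := by linarith
    _ = 4 * 120 ^ 6 * x := by ring

/-- **The constant `C₁(3)` is at least six.**
(1) For every integer `k ≥ 1` the cubic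
`f k = k ^ 2 x ^ 3 - (7 k ^ 2 + 8) x ^ 2 + 24 (k ^ 2 + 4) x + 16 k ^ 2` has no repeated root, its
largest coefficient is `M = 24 (k ^ 2 + 4)`, and `y ^ 2 = f k (x)` has an integral point with
`4 x = t (t + 2) (t + 3) (t + 4) (t ^ 2 + 5 t + 10)` where `t = k ^ 2`; in particular
`M ^ 6 ≤ 4 * 120 ^ 6 * x`.
(2) Hence, if the uniform height bound of the problem holds for the degree `3` with the constants
`C₁` and `C₂`, then `C₁ ≥ 6`. -/
theorem result :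
    (∀ k : ℕ, 1 ≤ k → (f k).natDegree = 3 ∧ ((f k).map (Int.castRingHom ℚ)).Separable ∧
      height (f k) = 24 * (k ^ 2 + 4) ∧
      ∃ x y : ℤ, y ^ 2 = (f k).eval x ∧
        4 * x = (k : ℤ) ^ 2 * ((k : ℤ) ^ 2 + 2) * ((k : ℤ) ^ 2 + 3) * ((k : ℤ) ^ 2 + 4) *
          (((k : ℤ) ^ 2) ^ 2 + 5 * (k : ℤ) ^ 2 + 10) ∧
        (height (f k) : ℤ) ^ 6 ≤ 4 * 120 ^ 6 * x) ∧
    (∀ C₁ C₂ : ℝ, (∀ f : ℤ[X], f.natDegree = 3 → (f.map (Int.castRingHom ℚ)).Separable →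
      ∀ x y : ℤ, y ^ 2 = f.eval x →
        Real.log (max |(x : ℝ)| 1) ≤ C₁ * Real.log (max (height f : ℝ) 1) + C₂) → 6 ≤ C₁) := by
  have main : ∀ k : ℕ, 1 ≤ k → (f k).natDegree = 3 ∧
      ((f k).map (Int.castRingHom ℚ)).Separable ∧ height (f k) = 24 * (k ^ 2 + 4) ∧
      ∃ x y : ℤ, y ^ 2 = (f k).eval x ∧
        4 * x = (k : ℤ) ^ 2 * ((k : ℤ) ^ 2 + 2) * ((k : ℤ) ^ 2 + 3) * ((k : ℤ) ^ 2 + 4) *
          (((k : ℤ) ^ 2) ^ 2 + 5 * (k : ℤ) ^ 2 + 10) ∧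
        (height (f k) : ℤ) ^ 6 ≤ 4 * 120 ^ 6 * x := by
    intro k hk
    obtain ⟨x, y, hxy, hx⟩ := point k
    exact ⟨natDegree_f hk, separable_f hk, height_f, x, y, hxy, hx, large hk hx⟩
  refine ⟨main, ?_⟩
  intro C₁ C₂ h
  by_contra hC
  push Not at hC
  obtain ⟨K, hK⟩ := exists_nat_gt (Real.exp ((C₂ + Real.log (4 * 120 ^ 6)) / (6 - C₁)))
  obtain ⟨hfd, hfs, hfM, x, y, hxy, -, hx⟩ := main (K + 1) (by omega)
  have h1 := h (f (K + 1)) hfd hfs x y hxy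
  have hfK : K + 1 ≤ height (f (K + 1)) := le_height (K + 1)
  generalize f (K + 1) = g at *
  have hM : (1 : ℝ) ≤ height g := by
    have : 1 ≤ height g := by omega
    exact_mod_cast this
  have hM0 : (0 : ℝ) < height g := by linarith
  have hx' : (height g : ℝ) ^ 6 ≤ (4 * 120 ^ 6 : ℝ) * x := by exact_mod_cast hx
  have hx0 : (0 : ℝ) < x := by
    have : (0 : ℝ) < (height g : ℝ) ^ 6 := by positivity
    by_contra hx1
    push Not at hx1
    have : (4 * 120 ^ 6 : ℝ) * x ≤ 0 := by nlinarith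
    linarith
  have h2 : 6 * Real.log (height g) ≤ Real.log x + Real.log (4 * 120 ^ 6) := by
    have h3 : Real.log ((height g : ℝ) ^ 6) ≤ Real.log ((4 * 120 ^ 6 : ℝ) * x) :=
      Real.log_le_log (by positivity) hx'
    rw [Real.log_mul (by norm_num) hx0.ne', Real.log_pow] at h3
    push_cast at h3
    linarith
  have h4 : Real.log x ≤ Real.log (max |(x : ℝ)| 1) :=
    Real.log_le_log hx0 (le_max_of_le_left (le_abs_self _))
  rw [max_eq_left hM] at h1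
  have h5 : (6 - C₁) * Real.log (height g) ≤ C₂ + Real.log (4 * 120 ^ 6) := by nlinarith
  have h6 : Real.log (height g) ≤ (C₂ + Real.log (4 * 120 ^ 6)) / (6 - C₁) := by
    rw [le_div_iff₀ (by linarith)]
    linarith
  have h7 : (height g : ℝ) ≤ Real.exp ((C₂ + Real.log (4 * 120 ^ 6)) / (6 - C₁)) :=
    (Real.log_le_iff_le_exp hM0).1 h6
  have h8 : (K : ℝ) + 1 ≤ height g := by exact_mod_cast hfK
  linarith

end Pool.Agent.Results.MP_d88658_nt.CubicConstantAtLeastSix
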