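import Mathlib

/-!
# The constant `C₁(4)` in the uniform height bound is at least four

For integers `j` the quartic
`f_j = 4096 (4 j ^ 2 + 1) x ^ 4 + (19200 j ^ 2 + 288) x ^ 3 + (6564 j ^ 2 - 356) x ^ 2 +
(856 j ^ 2 - 50) x + 36 j ^ 2` has a square value at
`x = 16 j ^ 4 (8 j ^ 2 - 3) (2 j ^ 2 - 1)`. For `j ≥ 2` the largest coefficient is
`M = 19200 j ^ 2 + 288`, and `x ≥ j ^ 8`, so `x` is larger than a constant times `M ^ 4`. Only
finitely many of the `f_j` have a repeated root.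
-/

set_option autoImplicit false

open Polynomial

namespace Pool.Agent.Results.MP_d88658_nt.QuarticConstantAtLeastFour

/-- the largest absolute value of a coefficient of `f` -/
def height (f : ℤ[X]) : ℕ := f.support.sup (fun i => (f.coeff i).natAbs)

lemma height_eq {f : ℤ[X]} {M n : ℕ} (h1 : ∀ i, (f.coeff i).natAbs ≤ M)
    (h2 : (f.coeff n).natAbs = M) (hM : M ≠ 0) : height f = M := by
  apply le_antisymm
  · exact Finset.sup_le fun i _ => h1 i
  · have hn : n ∈ f.support := by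
      rw [mem_support_iff]
      intro h
      rw [h] at h2
      exact hM h2.symm
    have := Finset.le_sup (f := fun i => (f.coeff i).natAbs) hn
    simp only [h2] at this
    exact this

/-- separability, from the absence of a common root in `ℂ` -/
lemma separable_of {f : ℤ[X]} (h : ∀ α : ℂ, aeval α f = 0 → aeval α (derivative f) ≠ 0) :
    (f.map (Int.castRingHom ℚ)).Separable := by
  unfold Separable
  refine (Polynomial.isCoprime_iff_aeval_ne_zero_of_isAlgClosed (k := ℚ) ℂ _ _).2 ?_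
  intro α
  have e1 : aeval α (f.map (Int.castRingHom ℚ)) = aeval α f := by
    rw [aeval_def, aeval_def, eval₂_map]
    congr 1
  have e2 : aeval α (derivative (f.map (Int.castRingHom ℚ))) = aeval α (derivative f) := by
    rw [derivative_map, aeval_def, aeval_def, eval₂_map]
    congr 1
  rw [e1, e2]
  by_cases h0 : aeval α f = 0
  · exact Or.inr (h α h0)
  · exact Or.inl h0

/-- in a pencil `A + t B` without base points only finitely many members have a double root -/
lemma finite_bad {A B : ℂ[X]} (hAB : ∀ α, B.eval α = 0 → A.eval α ≠ 0)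
    (hW : (A * derivative B - derivative A * B).eval 1 ≠ 0) :
    {t : ℂ | ∃ α, A.eval α + t * B.eval α = 0 ∧
      (derivative A).eval α + t * (derivative B).eval α = 0}.Finite := by
  have hW0 : A * derivative B - derivative A * B ≠ 0 := by
    rintro h
    rw [h, eval_zero] at hW
    exact hW rfl
  refine ((A * derivative B - derivative A * B).rootSet_finite ℂ |>.image
    (fun α => -(A.eval α) / B.eval α)).subset ?_
  rintro t ⟨α, h1, h2⟩
  have hB : B.eval α ≠ 0 := by
    intro h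
    rw [h, mul_zero, add_zero] at h1
    exact hAB α h h1
  refine ⟨α, ?_, ?_⟩
  · rw [mem_rootSet]
    refine ⟨hW0, ?_⟩
    rw [coe_aeval_eq_eval, eval_sub, eval_mul, eval_mul]
    linear_combination ((derivative B).eval α) * h1 - (B.eval α) * h2
  · show -(A.eval α) / B.eval α = t
    rw [div_eq_iff hB]
    linear_combination -h1

/-- the first polynomial of the pencil -/
noncomputable def A : ℂ[X] :=
  C 4096 * X ^ 4 + C 288 * X ^ 3 + C (-356) * X ^ 2 + C (-50) * X

/-- the second polynomial of the pencil -/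
noncomputable def B : ℂ[X] :=
  C 4096 * X ^ 4 + C 4800 * X ^ 3 + C 1641 * X ^ 2 + C 214 * X + C 9

lemma evalA (α : ℂ) : A.eval α = 4096 * α ^ 4 + 288 * α ^ 3 - 356 * α ^ 2 - 50 * α := by
  unfold A
  simp only [eval_add, eval_mul, eval_pow, eval_C, eval_X]
  ring

lemma evalB (α : ℂ) : B.eval α =
    4096 * α ^ 4 + 4800 * α ^ 3 + 1641 * α ^ 2 + 214 * α + 9 := by
  unfold B
  simp only [eval_add, eval_mul, eval_pow, eval_C, eval_X]

lemma evalA' (α : ℂ) : (derivative A).eval α =
    16384 * α ^ 3 + 864 * α ^ 2 - 712 * α - 50 := by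
  unfold A
  simp only [derivative_add, derivative_C_mul_X_pow, derivative_C_mul_X, eval_add, eval_mul,
    eval_pow, eval_C, eval_X]
  push_cast
  ring

lemma evalB' (α : ℂ) : (derivative B).eval α =
    16384 * α ^ 3 + 14400 * α ^ 2 + 3282 * α + 214 := by
  unfold B
  simp only [derivative_add, derivative_C_mul_X_pow, derivative_C_mul_X, derivative_C, eval_add,
    eval_mul, eval_pow, eval_C, eval_X, eval_zero]
  push_cast
  ring

lemma bad : {t : ℂ | ∃ α, A.eval α + t * B.eval α = 0 ∧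
      (derivative A).eval α + t * (derivative B).eval α = 0}.Finite := by
  apply finite_bad
  · intro α h h'
    rw [evalB] at h
    rw [evalA] at h'
    have : (1 : ℂ) = 0 := by
      linear_combination
        ((-1528628080/9) + (-19011856289/6) * α + (-44217495136/3) * α ^ 2 +
          (-135825676288/9) * α ^ 3) * h' +
        ((1/9) + (-8492378246/9) * α + (-1885331792) * α ^ 2 +
          (135825676288/9) * α ^ 3) * h
    exact one_ne_zero this
  · rw [eval_sub, eval_mul, eval_mul, evalA, evalB, evalA', evalB']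
    norm_num

/-- the quartic `f_j` -/
noncomputable def f (j : ℕ) : ℤ[X] :=
  C (4096 * (4 * (j : ℤ) ^ 2 + 1)) * X ^ 4 + C (19200 * (j : ℤ) ^ 2 + 288) * X ^ 3 +
    C (6564 * (j : ℤ) ^ 2 - 356) * X ^ 2 + C (856 * (j : ℤ) ^ 2 - 50) * X + C (36 * (j : ℤ) ^ 2)

lemma coeff_f (j n : ℕ) : (f j).coeff n = (if n = 4 then 4096 * (4 * (j : ℤ) ^ 2 + 1) else 0) +
    (if n = 3 then 19200 * (j : ℤ) ^ 2 + 288 else 0) +
    (if n = 2 then 6564 * (j : ℤ) ^ 2 - 356 else 0) +
    (if n = 1 then 856 * (j : ℤ) ^ 2 - 50 else 0) +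
      (if n = 0 then 36 * (j : ℤ) ^ 2 else 0) := by
  unfold f
  rw [coeff_add, coeff_add, coeff_add, coeff_add, coeff_C_mul, coeff_C_mul, coeff_C_mul,
    coeff_C_mul, coeff_X_pow, coeff_X_pow, coeff_X_pow, coeff_X, coeff_C]
  simp only [mul_ite, mul_one, mul_zero, eq_comm (a := 1) (b := n)]

lemma natDegree_f (j : ℕ) : (f j).natDegree = 4 := by
  apply natDegree_eq_of_le_of_coeff_ne_zero
  · rw [natDegree_le_iff_coeff_eq_zero]
    intro n hn
    rw [coeff_f, if_neg (by omega), if_neg (by omega), if_neg (by omega), if_neg (by omega),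
      if_neg (by omega)]
    rfl
  · rw [coeff_f, if_pos rfl, if_neg (by omega), if_neg (by omega), if_neg (by omega),
      if_neg (by omega)]
    positivity

lemma height_f {j : ℕ} (hj : 2 ≤ j) : height (f j) = 19200 * j ^ 2 + 288 := by
  have h4 : 4 ≤ j ^ 2 := by nlinarith
  have hT : (j : ℤ) ^ 2 = ((j ^ 2 : ℕ) : ℤ) := by push_cast; rfl
  refine height_eq (n := 3) ?_ ?_ (by omega)
  · intro i
    rw [coeff_f, hT]
    generalize j ^ 2 = T at *
    split_ifs <;> omega
  · rw [coeff_f, hT]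
    generalize j ^ 2 = T at *
    rw [if_neg (by omega), if_pos rfl, if_neg (by omega), if_neg (by omega), if_neg (by omega)]
    omega

lemma le_height {j : ℕ} (hj : 2 ≤ j) : j ≤ height (f j) := by
  rw [height_f hj]
  nlinarith

lemma map_f (j : ℕ) : (f j).map (Int.castRingHom ℂ) = A + C (4 * (j : ℂ) ^ 2) * B := by
  unfold f A B
  simp only [Polynomial.map_add, Polynomial.map_mul, Polynomial.map_pow, map_C, map_X]
  simp only [map_mul, map_pow, map_neg, map_one, map_ofNat, map_natCast, map_add, map_sub]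
  ring

lemma separable_f {j : ℕ} (h : (4 * (j : ℂ) ^ 2) ∉ {t : ℂ | ∃ α, A.eval α + t * B.eval α = 0 ∧
      (derivative A).eval α + t * (derivative B).eval α = 0}) :
    ((f j).map (Int.castRingHom ℚ)).Separable := by
  apply separable_of
  intro α h1 h2
  apply h
  have e : ∀ g : ℤ[X], aeval α g = (g.map (Int.castRingHom ℂ)).eval α := by
    intro g
    rw [aeval_def, eval_map]
    rfl
  rw [e] at h1 h2
  rw [← derivative_map, map_f] at h2
  rw [map_f] at h1
  refine ⟨α, ?_, ?_⟩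
  · rw [eval_add, eval_mul, eval_C] at h1
    exact h1
  · rw [derivative_add, derivative_C_mul, eval_add, eval_mul, eval_C] at h2
    exact h2

/-- the integral point -/
lemma point (j : ℕ) : (2 * (j : ℤ) * (4194304 * (j : ℤ) ^ 16 - 6815744 * (j : ℤ) ^ 14 +
      3833856 * (j : ℤ) ^ 12 - 716800 * (j : ℤ) ^ 10 - 60160 * (j : ℤ) ^ 8 +
      25632 * (j : ℤ) ^ 6 - 512 * (j : ℤ) ^ 4 + 100 * (j : ℤ) ^ 2 - 3)) ^ 2 =
    (f j).eval (16 * (j : ℤ) ^ 4 * (8 * (j : ℤ) ^ 2 - 3) * (2 * (j : ℤ) ^ 2 - 1)) := by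
  unfold f
  simp only [eval_add, eval_mul, eval_pow, eval_C, eval_X]
  ring

/-- the points are large -/
lemma large {j : ℕ} (hj : 2 ≤ j) : (height (f j) : ℤ) ^ 4 ≤
    20000 ^ 4 * (16 * (j : ℤ) ^ 4 * (8 * (j : ℤ) ^ 2 - 3) * (2 * (j : ℤ) ^ 2 - 1)) := by
  rw [height_f hj]
  push_cast
  have h6 : (4 : ℤ) ≤ (j : ℤ) ^ 2 := by
    have : (2 : ℤ) ≤ j := by exact_mod_cast hj
    nlinarith
  have e : (j : ℤ) ^ 4 = ((j : ℤ) ^ 2) ^ 2 := by ring
  rw [e]
  generalize (j : ℤ) ^ 2 = T at *
  have h1 : (19200 * T + 288) ^ 4 ≤ (20000 * T) ^ 4 := by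
    apply pow_le_pow_left₀ (by positivity)
    linarith
  have h3 : T * T ≤ (8 * T - 3) * (2 * T - 1) := by nlinarith
  have h2 : T ^ 4 ≤ 16 * T ^ 2 * (8 * T - 3) * (2 * T - 1) := by
    have h5 : 0 ≤ T ^ 2 := by positivity
    have h7 : T ^ 2 * (T * T) ≤ T ^ 2 * ((8 * T - 3) * (2 * T - 1)) :=
      mul_le_mul_of_nonneg_left h3 h5
    have h8 : 0 ≤ T ^ 2 * (T * T) := by positivity
    nlinarith
  calc (19200 * T + 288) ^ 4 ≤ (20000 * T) ^ 4 := h1
    _ = 20000 ^ 4 * T ^ 4 := by ring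
    _ ≤ 20000 ^ 4 * (16 * T ^ 2 * (8 * T - 3) * (2 * T - 1)) := by linarith

/-- the explicit family -/
lemma main (K : ℕ) : ∃ g : ℤ[X], g.natDegree = 4 ∧ (g.map (Int.castRingHom ℚ)).Separable ∧
    K ≤ height g ∧ ∃ x y : ℤ, y ^ 2 = g.eval x ∧ (height g : ℤ) ^ 4 ≤ 20000 ^ 4 * x := by
  have hinj : Function.Injective (fun r : ℕ => 4 * (r : ℂ) ^ 2) := by
    intro a b h
    have h1 : 4 * (a : ℂ) ^ 2 = 4 * (b : ℂ) ^ 2 := h
    have h2 : 4 * a ^ 2 = 4 * b ^ 2 := by exact_mod_cast h1
    exact Nat.pow_left_injective (by norm_num : 2 ≠ 0) (by simpa using h2)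
  have h1 := bad.preimage hinj.injOn
  have h3 := (Set.finite_lt_nat (K + 2))
  obtain ⟨j, hj⟩ := (h1.union h3).exists_notMem
  rw [Set.mem_union, not_or] at hj
  obtain ⟨g1, g3⟩ := hj
  have g4 : ¬ j < K + 2 := g3
  have hj2 : 2 ≤ j := by omega
  exact ⟨f j, natDegree_f j, separable_f g1, le_trans (by omega) (le_height hj2), _, _,
    point j, large hj2⟩

/-- **The constant `C₁(4)` is at least four.**
(1) There are polynomials `f ∈ ℤ[X]` of degree `4` without repeated roots, of arbitrarily large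
height `M` (the largest absolute value of a coefficient), such that `y ^ 2 = f(x)` has an integral
point with `M ^ 4 ≤ 20000 ^ 4 * x`.
(2) Hence, if the uniform height bound of the problem holds for the degree `4` with the constants
`C₁` and `C₂`, then `C₁ ≥ 4`. -/
theorem result :
    (∀ K : ℕ, ∃ g : ℤ[X], g.natDegree = 4 ∧ (g.map (Int.castRingHom ℚ)).Separable ∧
      K ≤ height g ∧ ∃ x y : ℤ, y ^ 2 = g.eval x ∧ (height g : ℤ) ^ 4 ≤ 20000 ^ 4 * x) ∧
    (∀ C₁ C₂ : ℝ, (∀ f : ℤ[X], f.natDegree = 4 → (f.map (Int.castRingHom ℚ)).Separable →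
      ∀ x y : ℤ, y ^ 2 = f.eval x →
        Real.log (max |(x : ℝ)| 1) ≤ C₁ * Real.log (max (height f : ℝ) 1) + C₂) → 4 ≤ C₁) := by
  refine ⟨main, ?_⟩
  intro C₁ C₂ h
  by_contra hC
  push Not at hC
  obtain ⟨K, hK⟩ := exists_nat_gt (Real.exp ((C₂ + Real.log (20000 ^ 4)) / (4 - C₁)))
  obtain ⟨g, hfd, hfs, hfK, x, y, hxy, hx⟩ := main (K + 1)
  have h1 := h g hfd hfs x y hxy
  have hM : (1 : ℝ) ≤ height g := by
    have : 1 ≤ height g := by omega
    exact_mod_cast this
  have hM0 : (0 : ℝ) < height g := by linarith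
  have hx' : (height g : ℝ) ^ 4 ≤ (20000 ^ 4 : ℝ) * x := by exact_mod_cast hx
  have hx0 : (0 : ℝ) < x := by
    have : (0 : ℝ) < (height g : ℝ) ^ 4 := by positivity
    by_contra hx1
    push Not at hx1
    have : (20000 ^ 4 : ℝ) * x ≤ 0 := by nlinarith
    linarith
  have h2 : 4 * Real.log (height g) ≤ Real.log x + Real.log (20000 ^ 4) := by
    have h3 : Real.log ((height g : ℝ) ^ 4) ≤ Real.log ((20000 ^ 4 : ℝ) * x) :=
      Real.log_le_log (by positivity) hx'
    rw [Real.log_mul (by norm_num) hx0.ne', Real.log_pow] at h3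
    push_cast at h3
    linarith
  have h4 : Real.log x ≤ Real.log (max |(x : ℝ)| 1) :=
    Real.log_le_log hx0 (le_max_of_le_left (le_abs_self _))
  rw [max_eq_left hM] at h1
  have h5 : (4 - C₁) * Real.log (height g) ≤ C₂ + Real.log (20000 ^ 4) := by nlinarith
  have h6 : Real.log (height g) ≤ (C₂ + Real.log (20000 ^ 4)) / (4 - C₁) := by
    rw [le_div_iff₀ (by linarith)]
    linarith
  have h7 : (height g : ℝ) ≤ Real.exp ((C₂ + Real.log (20000 ^ 4)) / (4 - C₁)) :=
    (Real.log_le_iff_le_exp hM0).1 h6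
  have h8 : (K : ℝ) + 1 ≤ height g := by exact_mod_cast hfK
  linarith

end Pool.Agent.Results.MP_d88658_nt.QuarticConstantAtLeastFour
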